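import Mathlib
import Pool.Agent.H56.BhProof

namespace Pool.Agent.Results.MP_38a930_nt.Counter

open Pool.Agent.H56.Bh

lemma hT : ∀ x ∈ ({3, 5, 7, 11, 13, 17, 19, 29, 31, 41, 43, 59, 73, 103, 107, 109, 137, 139, 149, 151, 199, 227, 229, 241, 269, 271, 347, 433, 569} : Finset ℤ), x ∈ twins := by
  intro x hx
  simp only [twins, Set.mem_ofPred_eq, primes_iff]
  simp only [Finset.mem_insert, Finset.mem_singleton] at hx
  rcases hx with rfl | rfl | rfl | rfl | rfl | rfl | rfl | rfl | rfl | rfl | rfl | rfl | rfl | rfl | rfl | rfl | rfl | rfl | rfl | rfl | rfl | rfl | rfl | rfl | rfl | rfl | rfl | rfl | rfl <;> norm_num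

lemma hQ : ∀ x ∈ ({5, 7, 11, 13, 17, 19, 101, 103, 107, 109, 191, 193, 197, 199, 821, 823, 827, 829, 1481, 1483, 1487, 1489, 1871, 1873, 1877, 1879, 2081, 2083, 2087, 2089} : Finset ℤ), x ∈ quadruplets := by
  intro x hx
  simp only [quadruplets, Set.mem_ofPred_eq, primes_iff]
  simp only [Finset.mem_insert, Finset.mem_singleton] at hx
  rcases hx with rfl | rfl | rfl | rfl | rfl | rfl | rfl | rfl | rfl | rfl | rfl | rfl | rfl | rfl | rfl | rfl | rfl | rfl | rfl | rfl | rfl | rfl | rfl | rfl | rfl | rfl | rfl | rfl | rfl | rfl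
  · exact ⟨5, by norm_num⟩
  · exact ⟨5, by norm_num⟩
  · exact ⟨5, by norm_num⟩
  · exact ⟨5, by norm_num⟩
  · exact ⟨11, by norm_num⟩
  · exact ⟨11, by norm_num⟩
  · exact ⟨101, by norm_num⟩
  · exact ⟨101, by norm_num⟩
  · exact ⟨101, by norm_num⟩
  · exact ⟨101, by norm_num⟩
  · exact ⟨191, by norm_num⟩
  · exact ⟨191, by norm_num⟩
  · exact ⟨191, by norm_num⟩
  · exact ⟨191, by norm_num⟩
  · exact ⟨821, by norm_num⟩
  · exact ⟨821, by norm_num⟩
  · exact ⟨821, by norm_num⟩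
  · exact ⟨821, by norm_num⟩
  · exact ⟨1481, by norm_num⟩
  · exact ⟨1481, by norm_num⟩
  · exact ⟨1481, by norm_num⟩
  · exact ⟨1481, by norm_num⟩
  · exact ⟨1871, by norm_num⟩
  · exact ⟨1871, by norm_num⟩
  · exact ⟨1871, by norm_num⟩
  · exact ⟨1871, by norm_num⟩
  · exact ⟨2081, by norm_num⟩
  · exact ⟨2081, by norm_num⟩
  · exact ⟨2081, by norm_num⟩
  · exact ⟨2081, by norm_num⟩

theorem result :
    ∃ n : ℕ, 1 ≤ n ∧ (∃ F, IsFactorial quadruplets n F) ∧ (∃ G, IsFactorial twins n G) ∧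
      ∀ F G : ℕ, IsFactorial quadruplets n F → IsFactorial twins n G →
        F ≠ (if Even n then 3 * w 3 n else 1) * G := by
  refine ⟨28, by norm_num, exists_factorial _ hQ (by decide), exists_factorial _ hT (by decide), ?_⟩
  intro F G hF hG h
  have h1 : 29 ∣ F := dvd_of_not_mem (p := 29) (by norm_num)
    (by rintro x ⟨p, h1, h2, h3, h4, rfl | rfl | rfl | rfl⟩ <;> assumption) (by
    rintro ⟨p, h1, h2, h3, h5, h4 | h4 | h4 | h4⟩
    · obtain rfl : p = 29 := by omega
      rw [primes_iff] at h3; norm_num at h3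
    · obtain rfl : p = 27 := by omega
      rw [primes_iff] at h1; norm_num at h1
    · obtain rfl : p = 23 := by omega
      rw [primes_iff] at h2; norm_num at h2
    · obtain rfl : p = 21 := by omega
      rw [primes_iff] at h1; norm_num at h1) hF
  have h2 : ¬ 29 ∣ G := not_dvd_of_many (p := 29) (by norm_num) _ hT (by decide) hG
  rw [h, if_pos (by decide), w, Nat.Prime.dvd_mul (by norm_num),
    Nat.Prime.dvd_mul (by norm_num)] at h1
  rcases h1 with (h1 | h1) | h1
  · omega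
  · have := Nat.Prime.dvd_of_dvd_pow (by norm_num) h1
    omega
  · exact h2 h1

end Pool.Agent.Results.MP_38a930_nt.Counter
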